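import Pool.Agent.Lib.MP_0f64c5_co.EmbE

/-!
# Every graph is an induced subgraph of a minimal PLD-maximal graph

For every finite graph `H` with `k` vertices and every `n ≥ 21 k + 68` some minimal PLD-maximal graph of order `n` has
an induced subgraph isomorphic to `H`; and for `n ≥ 10 ^ 6` there are at least `2 ^ (n ^ 2 / 1000)` minimal PLD-maximal
graphs of order `n` up to isomorphism.
-/

set_option autoImplicit false

namespace Pool.Agent.Results.MP_0f64c5_co.EveryInducedSubgraph

open Pool.Agent.Lib.MP_0f64c5_co

/-- (1) Every finite graph `H` is an induced subgraph of a minimal PLD-maximal graph of order `n`, for every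
`n ≥ 21 k + 68`, where `k` is the order of `H`. (2) If `n ≥ 10 ^ 6` and `R` is a set of graphs on `n` vertices such that
every minimal PLD-maximal graph on `n` vertices is isomorphic to a member of `R`, then `R` has at least
`2 ^ (n ^ 2 / 1000)` members (the exponent is rounded down). -/
theorem result :
    (∀ (W : Type) [Fintype W] (H : SimpleGraph W) (n : ℕ), 21 * Fintype.card W + 68 ≤ n →
      ∃ G : SimpleGraph (Fin n), MinimalPLDMaximal G ∧ Nonempty (H ↪g G)) ∧
    (∀ n : ℕ, 10 ^ 6 ≤ n → ∀ R : Set (SimpleGraph (Fin n)),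
      (∀ G : SimpleGraph (Fin n), MinimalPLDMaximal G → ∃ G' ∈ R, Nonempty (G' ≃g G)) →
      2 ^ (n ^ 2 / 1000) ≤ R.ncard) :=
  ⟨fun W _ H n hn => emb_main W H n hn, fun n hn R hR => emb_asym n hn R hR⟩

end Pool.Agent.Results.MP_0f64c5_co.EveryInducedSubgraph
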