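import Pool.Agent.Lib.MP_0f64c5_co.Upper
import Pool.Agent.Lib.MP_0f64c5_co.DenseRB

/-!
# The maximum size of minimal PLD-maximal graphs

Every minimal PLD-maximal graph of order `n ≥ 1000` has at most `49 n ^ 2 / 100` edges; for every
`n ≥ 12` some minimal PLD-maximal graph of order `n` has at least `(n ^ 2 - 9 n) / 4` edges.
-/

set_option autoImplicit false

namespace Pool.Agent.Results.MP_0f64c5_co.MaximumSize

open Pool.Agent.Lib.MP_0f64c5_co

theorem result :
    (∀ (V : Type) [Fintype V] (G : SimpleGraph V), 1000 ≤ Fintype.card V →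
      MinimalPLDMaximal G → 100 * edges G ≤ 49 * Fintype.card V ^ 2) ∧
    (∀ n : ℕ, 12 ≤ n → ∃ G : SimpleGraph (Fin n), MinimalPLDMaximal G ∧
      n ^ 2 ≤ 4 * edges G + 9 * n) :=
  ⟨fun _ _ _ hn hG => upper hn hG, fun n hn => exists_dense_all n hn⟩

end Pool.Agent.Results.MP_0f64c5_co.MaximumSize
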