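import Pool.Agent.Lib.MP_0f64c5_co.SecondSize

/-!
# The second smallest size of minimal PLD-maximal graphs

The wheel has `2 (n - 1)` edges; every other minimal PLD-maximal graph of order `n ≥ 10 ^ 6` has at
least `9 (n - 1) / 4` edges, with equality for some graph for every `n` congruent to 5 modulo 8.
-/

set_option autoImplicit false

namespace Pool.Agent.Results.MP_0f64c5_co.SecondSmallestSize

open Pool.Agent.Lib.MP_0f64c5_co

theorem result :
    (∀ (V : Type) [Fintype V] (G : SimpleGraph V), 10 ^ 6 ≤ Fintype.card V →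
      MinimalPLDMaximal G → ¬ IsWheel G → 9 * (Fintype.card V - 1) ≤ 4 * edges G) ∧
    (∀ n : ℕ, 10 ^ 6 ≤ n → n % 8 = 5 → ∃ G : SimpleGraph (Fin n),
      MinimalPLDMaximal G ∧ ¬ IsWheel G ∧ 4 * edges G = 9 * (n - 1)) :=
  ⟨fun _ _ _ hn hG hw => gap hn hG hw, fun n hn h8 => gap_sharp n hn h8⟩

end Pool.Agent.Results.MP_0f64c5_co.SecondSmallestSize
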