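import Pool.Agent.Lib.MP_0f64c5_co.Sparse
import Pool.Agent.Lib.MP_0f64c5_co.NoDomH
import Pool.Agent.Lib.MP_0f64c5_co.IsoA
import Pool.Agent.Lib.MP_0f64c5_co.IsoC

/-!
# Minimal PLD-maximal graphs with fewer than `5 (n - 2) / 2` edges

For `n ≥ 10 ^ 6` a graph of order `n` with fewer than `5 (n - 2) / 2` edges is minimal PLD-maximal iff
it is a vertex joined to all vertices of an edge-minimal homogeneously traceable graph. The bound
`5 (n - 2) / 2` is best possible for all `n`.
-/

set_option autoImplicit false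

namespace Pool.Agent.Results.MP_0f64c5_co.SparseCharacterisation

open Pool.Agent.Lib.MP_0f64c5_co

theorem result :
    (∀ (V : Type) [Fintype V] (G : SimpleGraph V), 10 ^ 6 ≤ Fintype.card V →
      2 * edges G < 5 * (Fintype.card V - 2) →
      (MinimalPLDMaximal G ↔ ∃ h, IsDom G h ∧ EdgeMinimalHT (G.induce {w | w ≠ h}))) ∧
    (∀ n : ℕ, 10 ^ 6 ≤ n → ∃ G : SimpleGraph (Fin n),
      MinimalPLDMaximal G ∧ (∀ h, ¬ IsDom G h) ∧ edges G = (5 * (n - 2) + 1) / 2) := by
  refine ⟨fun V _ G hn he => sparse_iff hn he, ?_⟩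
  intro n hn
  obtain ⟨G, hG, hd, he⟩ := exists_nodom_all n (by omega)
  have hc : Fintype.card (Fin n) = n := Fintype.card_fin _
  have h0 := no_dom_bound (G := G) (by rw [hc]; exact hn)
    (hG 3 le_rfl (by rw [hc]; omega)) (hG _ (by rw [hc]; omega) le_rfl) hd
  rw [hc] at h0
  refine ⟨G, ⟨hG, ?_⟩, hd, by omega⟩
  intro e heG hP
  have h1 := edges_deleteEdge heG
  have h2 : ∀ h, ¬ IsDom (G.deleteEdges {e}) h := by
    intro h hh
    refine hd h (fun w hw => ?_)
    have := hh w hw
    exact (SimpleGraph.deleteEdges_le (G := G) {e}) this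
  have h3 := no_dom_bound (G := G.deleteEdges {e}) (by rw [hc]; exact hn)
    (hP 3 le_rfl (by rw [hc]; omega)) (hP _ (by rw [hc]; omega) le_rfl) h2
  rw [hc] at h3
  omega

end Pool.Agent.Results.MP_0f64c5_co.SparseCharacterisation
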